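import Pool.Agent.Helper76.TB.GoalsT
import Pool.Agent.Helper39.BFT.EDV
import Pool.Agent.Helper61.BFT.Var
import Pool.Agent.Helper75.BFT.Law
import Pool.Agent.Helper30.BFT.DifLoc

/-!
# Project TB: packet EDV2, expected total deviation
-/

set_option autoImplicit false

open Finset Filter Topology MeasureTheory ProbabilityTheory

namespace Pool.Agent.Helper80.TB

open Pool.Agent.Helper90.Twin (Ps Gz)
open Pool.Agent.Helper60.BFT (len YF YP T0 T1 T2 Rem mT root Av lg Uni Adapted mem_lg lg_nodup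
  lg_prime)
open Pool.Agent.Helper76.TB (Dev2 EE2 Thr CutL AdH l2)
open Pool.Agent.Helper39.BFT (stat int4 T0_bound T1_bound T2_bound Rem_bound harm_le)

theorem adapted_of {ρ : ℕ → ℕ} {β : ℕ → ℕ → (ℕ → ℕ) → ℕ} (hρ : ∀ s, ρ s ≤ s) (h : AdH ρ β) :
    Adapted β := by
  intro r p hp a a' haa
  rcases le_or_gt p (ρ r) with h1 | h1
  · exact h.small r p h1 a a' (fun q hq => haa q (hq.trans (hρ r)))
  · rw [h.large r p h1, h.large r p h1, haa p hp]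

theorem edv_log_tendsto : Tendsto (fun R : ℕ => Real.log (R : ℝ)) atTop atTop :=
  Real.tendsto_log_atTop.comp tendsto_natCast_atTop_atTop

theorem edv_log_pow_le (k : ℕ) : ∀ᶠ R : ℕ in atTop, Real.log R ^ k ≤ R := by
  have h1 : ∀ᶠ x : ℝ in atTop, ‖Real.log x ^ k‖ ≤ 1 * ‖id x‖ :=
    (Asymptotics.isLittleO_iff.1 (Real.isLittleO_pow_log_id_atTop (n := k))) one_pos
  filter_upwards [tendsto_natCast_atTop_atTop.eventually h1] with R hR
  have h2 : ‖id (R : ℝ)‖ = R := by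
    simp
  rw [h2, one_mul] at hR
  exact (Real.le_norm_self _).trans hR

/-- the conditions that hold for large `r` -/
theorem good {c : ℝ} (hc : 0 < c) {Z ρ : ℕ → ℕ} (hZ : CutL c Z) (hρ : Thr ρ) :
    ∀ᶠ r : ℕ in atTop, 5 ≤ Z (r ^ 4) ∧ ρ r ≤ Z (r ^ 4) ∧ Real.log r ^ 20 ≤ ρ r ∧
      Real.log r ^ 10 ≤ r ∧ 1 ≤ Real.log r := by
  have h4 : Tendsto (fun r : ℕ => r ^ 4) atTop atTop := tendsto_pow_atTop (by norm_num)
  have h1 : ∀ᶠ r : ℕ in atTop, c / 2 < Real.log (Z (r ^ 4)) / Real.log ((r ^ 4 : ℕ) : ℝ) :=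
    (hZ.lim.comp h4).eventually (lt_mem_nhds (by linarith))
  have h2 : ∀ᶠ r : ℕ in atTop, Real.log (ρ r) * Real.log (Real.log r) ^ 2 / Real.log r < c :=
    hρ.high.eventually (gt_mem_nhds hc)
  filter_upwards [h1, h2, hρ.low, edv_log_pow_le 10,
    edv_log_tendsto.eventually_ge_atTop (Real.exp 1),
    edv_log_tendsto.eventually_ge_atTop (Real.log 5 / c)] with r g1 g2 g3 g4 g5 g6
  have he : (1 : ℝ) ≤ Real.exp 1 := Real.one_le_exp (by norm_num)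
  have hL1 : 1 ≤ Real.log r := he.trans g5
  have hL0 : 0 < Real.log r := by linarith
  have hLL : 1 ≤ Real.log (Real.log r) := by
    rw [Real.le_log_iff_exp_le hL0]
    exact g5
  have e1 : Real.log ((r ^ 4 : ℕ) : ℝ) = 4 * Real.log r := by
    push_cast
    rw [Real.log_pow]
    norm_num
  rw [e1, lt_div_iff₀ (by linarith)] at g1
  have g1' : 2 * c * Real.log r < Real.log (Z (r ^ 4)) := by linarith
  rw [div_lt_iff₀ hL0] at g2
  have hρ1 : (1 : ℝ) ≤ ρ r := by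
    refine le_trans ?_ g3
    exact one_le_pow₀ hL1
  have hρ0 : 0 ≤ Real.log (ρ r) := Real.log_nonneg hρ1
  have g2' : Real.log (ρ r) ≤ c * Real.log r := by
    have e2 : Real.log (ρ r) * 1 ≤ Real.log (ρ r) * Real.log (Real.log r) ^ 2 :=
      mul_le_mul_of_nonneg_left (one_le_pow₀ hLL) hρ0
    linarith
  have hcL : 0 < c * Real.log r := by positivity
  have hZ0 : 0 < Z (r ^ 4) := by
    rcases Nat.eq_zero_or_pos (Z (r ^ 4)) with h | h
    · rw [h] at g1'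
      simp only [Nat.cast_zero, Real.log_zero] at g1'
      linarith
    · exact h
  have hZ0' : (0 : ℝ) < Z (r ^ 4) := by exact_mod_cast hZ0
  refine ⟨?_, ?_, g3, g4, hL1⟩
  · have e3 : Real.log 5 ≤ c * Real.log r := by
      rw [div_le_iff₀ hc] at g6
      linarith
    have e4 : Real.log 5 < Real.log (Z (r ^ 4)) := by linarith
    have e5 := (Real.log_lt_log_iff (by norm_num) hZ0').1 e4
    have e6 : 5 < Z (r ^ 4) := by exact_mod_cast e5
    omega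
  · have e4 : Real.log (ρ r) < Real.log (Z (r ^ 4)) := by linarith
    have e5 := (Real.log_lt_log_iff (by linarith) hZ0').1 e4
    have e6 : ρ r < Z (r ^ 4) := by exact_mod_cast e5
    exact e6.le

theorem len4_le (r : ℕ) (hr : 1 ≤ r) : (len 4 r : ℝ) ≤ 32 * (r : ℝ) ^ 3 := by
  have h1 := Pool.Agent.Helper39.BFT.len_le 4 r (by norm_num) hr
  norm_num at h1
  exact h1

/-- the sum of squares, with threshold `ρ` -/
theorem sumsq2 (r ρ M : ℕ) (L l : ℝ) (hl0 : 0 ≤ l) (hl : l ≤ 32 * (r : ℝ) ^ 3)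
    (hr : 1 ≤ r) (hM : M ≤ r ^ 4) (hρM : ρ ≤ M) (hρ : L ^ 20 ≤ ρ) (hL : 1 ≤ L)
    (hLr : L ^ 10 ≤ r) :
    Real.sqrt (((lg ρ M).map (fun q : ℕ => (12 * (l / (q : ℝ) + 1)) ^ 2)).sum)
      ≤ 561 * ((r : ℝ) ^ 3 / L ^ 10) := by
  have hr' : (1 : ℝ) ≤ r := by exact_mod_cast hr
  have hL0 : 0 < L := by linarith
  have hρ1' : (1 : ℝ) ≤ ρ := (one_le_pow₀ hL).trans hρ
  have hρ1 : 1 ≤ ρ := by exact_mod_cast hρ1'
  have key : ((lg ρ M).map (fun q : ℕ => (12 * (l / (q : ℝ) + 1)) ^ 2)).sum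
      ≤ (561 * ((r : ℝ) ^ 3 / L ^ 10)) ^ 2 := by
    unfold lg
    rw [Finset.sum_map_toList]
    have hsub : Ps M \ Ps ρ ⊆ Ioc ρ M := by
      intro p hp
      have hp' : p ∈ lg ρ M := by
        unfold lg
        rwa [Finset.mem_toList]
      have := mem_lg.1 hp'
      rw [mem_Ioc]
      exact ⟨this.2.2.2, this.2.1⟩
    have h1 : ∀ q ∈ Ioc ρ M, (12 * (l / (q : ℝ) + 1)) ^ 2
        ≤ 288 * l ^ 2 * ((q : ℝ) ^ 2)⁻¹ + 288 := by
      intro q hq
      rw [mem_Ioc] at hq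
      have hq' : (0 : ℝ) < q := by exact_mod_cast (by omega : 0 < q)
      have e : l / (q : ℝ) = l * (q : ℝ)⁻¹ := div_eq_mul_inv _ _
      have h2 : (12 * (l / (q : ℝ) + 1)) ^ 2 = 144 * (l / q + 1) ^ 2 := by ring
      have h3 : (l / (q : ℝ) + 1) ^ 2 ≤ 2 * (l / q) ^ 2 + 2 := by
        nlinarith [sq_nonneg (l / (q : ℝ) - 1)]
      have h4 : (l / (q : ℝ)) ^ 2 = l ^ 2 * ((q : ℝ) ^ 2)⁻¹ := by
        rw [e, mul_pow, inv_pow]
      rw [h2]
      rw [h4] at h3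
      linarith
    have h2 : ∑ q ∈ Ps M \ Ps ρ, (12 * (l / (q : ℝ) + 1)) ^ 2
        ≤ ∑ q ∈ Ioc ρ M, (288 * l ^ 2 * ((q : ℝ) ^ 2)⁻¹ + 288) := by
      refine (Finset.sum_le_sum_of_subset_of_nonneg hsub (fun q _ _ => sq_nonneg _)).trans ?_
      exact Finset.sum_le_sum h1
    have h3 : ∑ q ∈ Ioc ρ M, (288 * l ^ 2 * ((q : ℝ) ^ 2)⁻¹ + 288)
        = 288 * l ^ 2 * (∑ q ∈ Ioc ρ M, ((q : ℝ) ^ 2)⁻¹) + 288 * ((Ioc ρ M).card : ℝ) := by
      rw [Finset.sum_add_distrib, ← Finset.mul_sum, Finset.sum_const, nsmul_eq_mul]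
      ring
    have h4 : ∑ q ∈ Ioc ρ M, ((q : ℝ) ^ 2)⁻¹ ≤ (ρ : ℝ)⁻¹ := by
      have := sum_Ioc_inv_sq_le_sub (α := ℝ) (k := ρ) (n := M) (by omega) hρM
      have h5 : (0 : ℝ) ≤ (M : ℝ)⁻¹ := by positivity
      linarith
    have h5 : ((Ioc ρ M).card : ℝ) ≤ (r : ℝ) ^ 4 := by
      rw [Nat.card_Ioc]
      have : M - ρ ≤ r ^ 4 := by omega
      exact_mod_cast this
    have h6 : l ^ 2 ≤ (32 * (r : ℝ) ^ 3) ^ 2 := pow_le_pow_left₀ hl0 hl 2
    have h7 : (ρ : ℝ)⁻¹ ≤ (L ^ 20)⁻¹ := inv_anti₀ (by positivity) hρ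
    have h8 : 288 * l ^ 2 * (∑ q ∈ Ioc ρ M, ((q : ℝ) ^ 2)⁻¹)
        ≤ 288 * (32 * (r : ℝ) ^ 3) ^ 2 * (L ^ 20)⁻¹ := by
      calc 288 * l ^ 2 * (∑ q ∈ Ioc ρ M, ((q : ℝ) ^ 2)⁻¹) ≤ 288 * l ^ 2 * (L ^ 20)⁻¹ :=
            mul_le_mul_of_nonneg_left (h4.trans h7) (by positivity)
        _ ≤ _ := by
            apply mul_le_mul_of_nonneg_right _ (by positivity)
            linarith
    have h9 : (r : ℝ) ^ 4 ≤ (r : ℝ) ^ 6 * (L ^ 20)⁻¹ := by
      rw [← div_eq_mul_inv, le_div_iff₀ (by positivity)]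
      have e1 : L ^ 20 ≤ (r : ℝ) ^ 2 := by
        calc L ^ 20 = (L ^ 10) ^ 2 := by ring
          _ ≤ (r : ℝ) ^ 2 := pow_le_pow_left₀ (by positivity) hLr 2
      calc (r : ℝ) ^ 4 * L ^ 20 ≤ (r : ℝ) ^ 4 * (r : ℝ) ^ 2 :=
            mul_le_mul_of_nonneg_left e1 (by positivity)
        _ = (r : ℝ) ^ 6 := by ring
    have h10 : (0 : ℝ) ≤ (r : ℝ) ^ 6 * (L ^ 20)⁻¹ := by positivity
    have h11 : (561 * ((r : ℝ) ^ 3 / L ^ 10)) ^ 2 = 314721 * ((r : ℝ) ^ 6 * (L ^ 20)⁻¹) := by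
      have e1 : (L ^ 20)⁻¹ = ((L ^ 10)⁻¹) ^ 2 := by
        ring
      rw [e1, div_eq_mul_inv]
      ring
    have h12 : 288 * (32 * (r : ℝ) ^ 3) ^ 2 * (L ^ 20)⁻¹
        = 294912 * ((r : ℝ) ^ 6 * (L ^ 20)⁻¹) := by ring
    rw [h11]
    calc _ ≤ 288 * l ^ 2 * (∑ q ∈ Ioc ρ M, ((q : ℝ) ^ 2)⁻¹) + 288 * ((Ioc ρ M).card : ℝ) := by
          rw [← h3]
          exact h2
      _ ≤ 294912 * ((r : ℝ) ^ 6 * (L ^ 20)⁻¹) + 288 * ((r : ℝ) ^ 6 * (L ^ 20)⁻¹) := by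
          rw [h12] at h8
          linarith
      _ ≤ _ := by linarith
  calc _ ≤ Real.sqrt ((561 * ((r : ℝ) ^ 3 / L ^ 10)) ^ 2) := Real.sqrt_le_sqrt key
    _ = _ := Real.sqrt_sq (by positivity)

/-- the sum of the main errors -/
theorem sum_cube (a R : ℕ) (ha : 3 ≤ a) (hR : 3 ≤ R) :
    ∑ r ∈ Ico a R, (r : ℝ) ^ 3 / Real.log r ^ 10
      ≤ (R : ℝ) ^ 2 + 4 ^ 10 * ((R : ℝ) ^ 4 / Real.log R ^ 10) := by
  have hR' : (3 : ℝ) ≤ R := by exact_mod_cast hR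
  have hlogR : 0 < Real.log R := Real.log_pos (by linarith)
  have hexp : Real.exp 1 ≤ 3 := by
    have := Real.exp_one_lt_d9
    linarith
  have key : ∀ r ∈ Ico a R, (r : ℝ) ^ 3 / Real.log r ^ 10
      ≤ R + 4 ^ 10 * ((R : ℝ) ^ 3 / Real.log R ^ 10) := by
    intro r hr
    rw [mem_Ico] at hr
    have hr3 : (3 : ℝ) ≤ r := by exact_mod_cast ha.trans hr.1
    have hrR : (r : ℝ) ≤ R := by exact_mod_cast hr.2.le
    have hl1 : 1 ≤ Real.log r := by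
      rw [Real.le_log_iff_exp_le (by linarith)]
      linarith
    have hB : (0 : ℝ) ≤ 4 ^ 10 * ((R : ℝ) ^ 3 / Real.log R ^ 10) := by positivity
    rcases le_or_gt (Real.log R) (4 * Real.log r) with h | h
    · have e1 : (Real.log R / 4) ^ 10 ≤ Real.log r ^ 10 :=
        pow_le_pow_left₀ (by positivity) (by linarith) 10
      have e2 : (r : ℝ) ^ 3 / Real.log r ^ 10 ≤ (R : ℝ) ^ 3 / (Real.log R / 4) ^ 10 := by
        apply div_le_div₀ (by positivity) (pow_le_pow_left₀ (by linarith) hrR 3)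
          (by positivity) e1
      have e3 : (R : ℝ) ^ 3 / (Real.log R / 4) ^ 10
          = 4 ^ 10 * ((R : ℝ) ^ 3 / Real.log R ^ 10) := by
        rw [div_pow, div_div_eq_mul_div]
        ring
      linarith
    · have e1 : Real.log ((r : ℝ) ^ 4) < Real.log R := by
        rw [Real.log_pow]
        push_cast
        exact h
      have e2 : (r : ℝ) ^ 4 < R :=
        (Real.log_lt_log_iff (by positivity) (by linarith)).1 e1
      have e3 : (r : ℝ) ^ 3 ≤ (r : ℝ) ^ 4 := pow_le_pow_right₀ (by linarith) (by norm_num)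
      have e4 : (r : ℝ) ^ 3 / Real.log r ^ 10 ≤ (r : ℝ) ^ 3 :=
        div_le_self (by positivity) (one_le_pow₀ hl1)
      linarith
  have hcard : ((Ico a R).card : ℝ) ≤ R := by
    rw [Nat.card_Ico]
    exact_mod_cast Nat.sub_le _ _
  calc ∑ r ∈ Ico a R, (r : ℝ) ^ 3 / Real.log r ^ 10
      ≤ ∑ r ∈ Ico a R, ((R : ℝ) + 4 ^ 10 * ((R : ℝ) ^ 3 / Real.log R ^ 10)) :=
        Finset.sum_le_sum key
    _ = ((Ico a R).card : ℝ) * ((R : ℝ) + 4 ^ 10 * ((R : ℝ) ^ 3 / Real.log R ^ 10)) := by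
        rw [Finset.sum_const, nsmul_eq_mul]
    _ ≤ R * ((R : ℝ) + 4 ^ 10 * ((R : ℝ) ^ 3 / Real.log R ^ 10)) :=
        mul_le_mul_of_nonneg_right hcard (by positivity)
    _ = _ := by ring

theorem edv2 (h1 : Pool.Agent.Helper76.TB.DIF2G) (h2 : Pool.Agent.Helper76.TB.REM2G) :
    Pool.Agent.Helper76.TB.EDV2G := by
  intro c hc Z ρ hZ hρ
  obtain ⟨R1, hR1⟩ := eventually_atTop.1 (good hc hZ hρ)
  set F : ℝ := ((Nat.factorial 10 : ℕ) : ℝ) with hF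
  have hF0 : 0 < F := by
    rw [hF]
    exact_mod_cast Nat.factorial_pos 10
  refine ⟨1683 * (F + 4 ^ 10) + 320 * F, max R1 5, by omega, ?_⟩
  intro Ω _ μ _ ω hω β hβ R hR'
  have hRr : (3 : ℝ) ≤ R := by exact_mod_cast hR'
  have hexp : Real.exp 1 ≤ 3 := by
    have := Real.exp_one_lt_d9
    linarith
  have hlogR : 1 ≤ Real.log R := by
    rw [Real.le_log_iff_exp_le (by linarith)]
    linarith
  have hAd : Adapted β := adapted_of hρ.le hβ
  set D : ℕ → ℝ := fun r => ∑ p ∈ Ps (Z (r ^ 4)), 2 / (p : ℝ) with hDdef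
  have hDmono : ∀ r, D r ≤ D (r + 1) := by
    intro r
    simp only [hDdef]
    apply Finset.sum_le_sum_of_subset_of_nonneg
    · intro p hp
      rw [Helper90.Twin.mem_Ps] at hp ⊢
      have : Z (r ^ 4) ≤ Z ((r + 1) ^ 4) := hZ.mono (Nat.pow_le_pow_left (Nat.le_succ r) 4)
      exact ⟨hp.1, hp.2.1.trans this, hp.2.2⟩
    · intro p _ _
      positivity
  have hblock : ∀ r ∈ Ico (max R1 5) R, ∫ w, Dev2 ρ Z β r (fun p => ω p w) ∂μ
      ≤ 1683 * ((r : ℝ) ^ 3 / Real.log r ^ 10) + 32 * (R : ℝ) ^ 3 * (D (r + 1) - D r) := by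
    intro r hr
    rw [mem_Ico] at hr
    have hr1 : R1 ≤ r := le_trans (le_max_left _ _) hr.1
    have hr5 : 5 ≤ r := le_trans (le_max_right _ _) hr.1
    obtain ⟨g1, g2, g3, g4, g5⟩ := hR1 r hr1
    have hrR' : (r : ℝ) ≤ R := by exact_mod_cast hr.2.le
    have hloc := Pool.Agent.Helper30.BFT.locG 4 Z β hZ.mono hAd r
    set M := max r (Z ((r + 1) ^ 4)) with hM
    have hlen := len4_le r (by omega)
    have hs2 : Real.sqrt ((((lg (ρ r) (Z (r ^ 4))).map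
        (fun q : ℕ => (12 * ((len 4 r : ℝ) / (q : ℝ) + 1)) ^ 2)).sum))
        ≤ 561 * ((r : ℝ) ^ 3 / Real.log r ^ 10) :=
      sumsq2 r (ρ r) (Z (r ^ 4)) (Real.log r) (len 4 r) (Nat.cast_nonneg _) hlen (by omega)
        (hZ.le _) g2 g3 g5 g4
    have hL1 : ∀ q ∈ lg (ρ r) (Z (r ^ 4)), ρ r < q := fun q hq => (mem_lg.1 hq).2.2.2
    have hd := fun (q : ℕ) (hq : q ∈ lg (ρ r) (Z (r ^ 4))) =>
      h1 ρ Z β hρ.le hβ r q (lg_prime q hq) (hL1 q hq)
    have s0 := stat Pool.Agent.Helper61.BFT.varg Pool.Agent.Helper75.BFT.law Ω μ ω hω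
      (lg (ρ r) (Z (r ^ 4))) (lg_nodup _ _) lg_prime (T0 4 Z β r) (len 4 r)
      (T0_bound 4 Z β r) M (fun a a' h => (hloc a a' h).1)
      (fun q => 12 * ((len 4 r : ℝ) / (q : ℝ) + 1))
      (fun q hq a u _ v _ => (hd q hq a u v).1)
    have s1 := stat Pool.Agent.Helper61.BFT.varg Pool.Agent.Helper75.BFT.law Ω μ ω hω
      (lg (ρ r) (Z (r ^ 4))) (lg_nodup _ _) lg_prime (T1 4 Z β r) (len 4 r)
      (T1_bound 4 Z β r) M (fun a a' h => (hloc a a' h).2.1)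
      (fun q => 12 * ((len 4 r : ℝ) / (q : ℝ) + 1))
      (fun q hq a u _ v _ => (hd q hq a u v).2.1)
    have s2 := stat Pool.Agent.Helper61.BFT.varg Pool.Agent.Helper75.BFT.law Ω μ ω hω
      (lg (ρ r) (Z (r ^ 4))) (lg_nodup _ _) lg_prime (T2 4 Z β r) (len 4 r)
      (T2_bound 4 Z β r) M (fun a a' h => (hloc a a' h).2.2.1)
      (fun q => 12 * ((len 4 r : ℝ) / (q : ℝ) + 1))
      (fun q hq a u _ v _ => (hd q hq a u v).2.2)
    have s3 := Pool.Agent.Helper75.BFT.law Ω μ ω hω [] List.nodup_nil (by simp) M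
      (Rem 4 Z β r) (fun a a' h => (hloc a a' h).2.2.2.1) ⟨len 4 r, Rem_bound 4 Z β r⟩
    have hrem := h2 Ω μ ω hω ρ Z β hZ.mono hρ.le hβ r g1 g2
    have hint : ∫ w, Dev2 ρ Z β r (fun p => ω p w) ∂μ
        = ∫ w, |T0 4 Z β r (fun p => ω p w)
            - Av (lg (ρ r) (Z (r ^ 4))) (T0 4 Z β r) (fun p => ω p w)| ∂μ
        + ∫ w, |T1 4 Z β r (fun p => ω p w)
            - Av (lg (ρ r) (Z (r ^ 4))) (T1 4 Z β r) (fun p => ω p w)| ∂μ
        + ∫ w, |T2 4 Z β r (fun p => ω p w)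
            - Av (lg (ρ r) (Z (r ^ 4))) (T2 4 Z β r) (fun p => ω p w)| ∂μ
        + ∫ w, Rem 4 Z β r (fun p => ω p w) ∂μ := by
      have e : ∀ w, Dev2 ρ Z β r (fun p => ω p w)
          = |T0 4 Z β r (fun p => ω p w)
              - Av (lg (ρ r) (Z (r ^ 4))) (T0 4 Z β r) (fun p => ω p w)|
          + |T1 4 Z β r (fun p => ω p w)
              - Av (lg (ρ r) (Z (r ^ 4))) (T1 4 Z β r) (fun p => ω p w)|
          + |T2 4 Z β r (fun p => ω p w)
              - Av (lg (ρ r) (Z (r ^ 4))) (T2 4 Z β r) (fun p => ω p w)|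
          + Rem 4 Z β r (fun p => ω p w) := fun w => rfl
      simp only [e]
      exact int4 μ _ _ _ _ s0.1 s1.1 s2.1 s3.1
    have hremb : (len 4 r : ℝ) * ((∑ p ∈ Ps (Z ((r + 1) ^ 4)), 2 / (p : ℝ))
        - ∑ p ∈ Ps (Z (r ^ 4)), 2 / (p : ℝ)) ≤ 32 * (R : ℝ) ^ 3 * (D (r + 1) - D r) := by
      have e1 : (0 : ℝ) ≤ D (r + 1) - D r := by linarith [hDmono r]
      have e2 : (len 4 r : ℝ) ≤ 32 * (R : ℝ) ^ 3 := by
        refine hlen.trans ?_
        apply mul_le_mul_of_nonneg_left _ (by norm_num)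
        exact pow_le_pow_left₀ (Nat.cast_nonneg _) hrR' _
      exact mul_le_mul_of_nonneg_right e2 e1
    rw [hint]
    have t0 := s0.2.trans hs2
    have t1 := s1.2.trans hs2
    have t2 := s2.2.trans hs2
    have t3 := hrem.trans hremb
    linarith
  have hsum := Finset.sum_le_sum hblock
  refine hsum.trans ?_
  rw [Finset.sum_add_distrib, ← Finset.mul_sum, ← Finset.mul_sum]
  have hcube := sum_cube (max R1 5) R (by omega) hR'
  -- the telescoping sum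
  have hD0 : ∀ r, 0 ≤ D r := fun r => Finset.sum_nonneg (fun p _ => by positivity)
  have hsumD : ∑ r ∈ Ico (max R1 5) R, (D (r + 1) - D r) ≤ D R := by
    rcases le_or_gt (max R1 5) R with h | h
    · rw [Finset.sum_Ico_sub D h]
      linarith [hD0 (max R1 5)]
    · rw [Finset.Ico_eq_empty (by omega)]
      simpa using hD0 R
  have hDR : D R ≤ 10 * Real.log R := by
    have e1 : D R ≤ ∑ n ∈ Icc 1 (R ^ 4), 2 * ((n : ℝ))⁻¹ := by
      simp only [hDdef]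
      calc ∑ p ∈ Ps (Z (R ^ 4)), 2 / (p : ℝ) = ∑ p ∈ Ps (Z (R ^ 4)), 2 * ((p : ℝ))⁻¹ := by
            apply Finset.sum_congr rfl
            intro p _
            rw [div_eq_mul_inv]
        _ ≤ _ := by
            apply Finset.sum_le_sum_of_subset_of_nonneg
            · intro p hp
              rw [Helper90.Twin.mem_Ps] at hp
              rw [mem_Icc]
              exact ⟨by omega, hp.2.1.trans (hZ.le _)⟩
            · intro p _ _
              positivity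
    rw [← Finset.mul_sum] at e1
    have e2 := harm_le (R ^ 4)
    have e3 : Real.log ((R ^ 4 : ℕ) : ℝ) = 4 * Real.log R := by
      push_cast
      rw [Real.log_pow]
      norm_num
    rw [e3] at e2
    linarith
  -- sizes
  have hpow : Real.log R ^ 10 ≤ F * R := by
    have e1 := Real.pow_div_factorial_le_exp (Real.log R) (by linarith) 10
    rw [Real.exp_log (by linarith)] at e1
    rw [div_le_iff₀ hF0] at e1
    linarith
  have hL9 : 0 < Real.log R ^ 9 := by positivity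
  have hL10 : 0 < Real.log R ^ 10 := by positivity
  have q1 : (R : ℝ) ^ 2 ≤ F * ((R : ℝ) ^ 4 / Real.log R ^ 9) := by
    rw [← mul_div_assoc, le_div_iff₀ hL9]
    have e1 : Real.log R ^ 9 ≤ Real.log R ^ 10 := pow_le_pow_right₀ hlogR (by norm_num)
    have e2 : F * (R : ℝ) ≤ F * (R : ℝ) ^ 2 := by
      apply mul_le_mul_of_nonneg_left _ hF0.le
      nlinarith
    calc (R : ℝ) ^ 2 * Real.log R ^ 9 ≤ (R : ℝ) ^ 2 * (F * (R : ℝ) ^ 2) :=
          mul_le_mul_of_nonneg_left (by linarith) (by positivity)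
      _ = _ := by ring
  have q2 : (R : ℝ) ^ 4 / Real.log R ^ 10 ≤ (R : ℝ) ^ 4 / Real.log R ^ 9 := by
    apply div_le_div_of_nonneg_left (by positivity) hL9
    exact pow_le_pow_right₀ hlogR (by norm_num)
  have q3 : (R : ℝ) ^ 3 * Real.log R ≤ F * ((R : ℝ) ^ 4 / Real.log R ^ 9) := by
    rw [← mul_div_assoc, le_div_iff₀ hL9]
    calc (R : ℝ) ^ 3 * Real.log R * Real.log R ^ 9 = (R : ℝ) ^ 3 * Real.log R ^ 10 := by ring
      _ ≤ (R : ℝ) ^ 3 * (F * R) := mul_le_mul_of_nonneg_left hpow (by positivity)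
      _ = _ := by ring
  have p1 : 1683 * ∑ r ∈ Ico (max R1 5) R, (r : ℝ) ^ 3 / Real.log r ^ 10
      ≤ 1683 * (F + 4 ^ 10) * ((R : ℝ) ^ 4 / Real.log R ^ 9) := by
    have e1 : (R : ℝ) ^ 2 + 4 ^ 10 * ((R : ℝ) ^ 4 / Real.log R ^ 10)
        ≤ (F + 4 ^ 10) * ((R : ℝ) ^ 4 / Real.log R ^ 9) := by
      rw [add_mul]
      linarith
    calc 1683 * ∑ r ∈ Ico (max R1 5) R, (r : ℝ) ^ 3 / Real.log r ^ 10
        ≤ 1683 * ((F + 4 ^ 10) * ((R : ℝ) ^ 4 / Real.log R ^ 9)) :=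
          mul_le_mul_of_nonneg_left (hcube.trans e1) (by norm_num)
      _ = _ := by ring
  have p2 : 32 * (R : ℝ) ^ 3 * ∑ r ∈ Ico (max R1 5) R, (D (r + 1) - D r)
      ≤ 320 * F * ((R : ℝ) ^ 4 / Real.log R ^ 9) := by
    calc 32 * (R : ℝ) ^ 3 * ∑ r ∈ Ico (max R1 5) R, (D (r + 1) - D r)
        ≤ 32 * (R : ℝ) ^ 3 * (10 * Real.log R) :=
          mul_le_mul_of_nonneg_left (hsumD.trans hDR) (by positivity)
      _ = 320 * ((R : ℝ) ^ 3 * Real.log R) := by ring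
      _ ≤ 320 * (F * ((R : ℝ) ^ 4 / Real.log R ^ 9)) :=
          mul_le_mul_of_nonneg_left q3 (by norm_num)
      _ = _ := by ring
  linarith

end Pool.Agent.Helper80.TB
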