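import Pool.Agent.Helper76.TB.Goals
import Pool.Agent.Helper90.TwinU
import Pool.Agent.Helper60.BFT.Core
import Pool.Agent.Helper88.BFT.PthRun

/-!
# Project TB: packet BT, the upper bound sieve for a window
-/

set_option autoImplicit false

open Finset Filter Topology

namespace Pool.Agent.Helper80.TB

open Pool.Agent.Helper90.Twin (Ps Gz Sz XX yy Xz GG Adm nu mem_Ps Ps_mono yy_per yy_sum
  sum_range_shift_periodic adm_yy factor_pos factor_le_one Gz_pos inv_Gz_le eventually_Sz_le)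
open Pool.Agent.Helper60.BFT (root)

theorem adm_shift (a : ℕ) : Adm (fun p i => yy p (a + i)) 2 := by
  refine ⟨?_, ?_, ?_, ?_⟩
  · intro p hp h5 x
    exact adm_yy.nonneg p hp h5 _
  · intro p hp h5 x
    exact adm_yy.le_one p hp h5 _
  · intro p _ _ x
    show yy p (a + (x + p)) = yy p (a + x)
    rw [← add_assoc, yy_per]
  · intro p hp h5
    unfold nu
    rw [sum_range_shift_periodic (yy_per p) a, yy_sum hp h5]

theorem mean_shift (a z : ℕ) :
    ∏ p ∈ Ps z, (1 - nu (fun p i => yy p (a + i)) p / (p : ℝ)) = Gz z := by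
  unfold Gz GG nu
  apply Finset.prod_congr rfl
  intro p hp
  rw [sum_range_shift_periodic (yy_per p) a, yy_sum (mem_Ps.1 hp).2.2 (mem_Ps.1 hp).1]

theorem one_le_factor {p z : ℕ} (hp : p ∈ Ps z) :
    1 ≤ Real.exp (10 / 3 * (1 / (p : ℝ))) * (1 - 2 / (p : ℝ)) := by
  have h5 : (5 : ℝ) ≤ p := by exact_mod_cast (mem_Ps.1 hp).1
  have hf := factor_pos hp
  have h1 : (1 - 2 / (p : ℝ))⁻¹ = 2 / ((p : ℝ) - 2) + 1 := by
    have h2 : (p : ℝ) ≠ 0 := by linarith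
    have h3 : (p : ℝ) - 2 ≠ 0 := by linarith
    have h4 : 1 - 2 / (p : ℝ) = (p - 2) / p := by field_simp
    rw [h4, inv_div]
    field_simp
    ring
  have h2 : (1 - 2 / (p : ℝ))⁻¹ ≤ Real.exp (10 / 3 * (1 / (p : ℝ))) := by
    rw [h1]
    refine (Real.add_one_le_exp _).trans ?_
    apply Real.exp_le_exp.2
    rw [div_le_iff₀ (by linarith)]
    have h6 : (10 : ℝ) / 3 * (1 / p) * (p - 2) = 10 / 3 - 20 / 3 * (1 / p) := by
      field_simp
      ring
    rw [h6]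
    have h7 : (1 : ℝ) / p ≤ 1 / 5 := by
      apply one_div_le_one_div_of_le (by norm_num) h5
    linarith
  calc (1 : ℝ) = (1 - 2 / (p : ℝ))⁻¹ * (1 - 2 / (p : ℝ)) := (inv_mul_cancel₀ hf.ne').symm
    _ ≤ _ := mul_le_mul_of_nonneg_right h2 hf.le

theorem Gz_le_ratio {q Z : ℕ} (h : q ≤ Z) :
    Gz q ≤ Real.exp (10 / 3 * (Sz Z - Sz q)) * Gz Z := by
  have h1 : Sz Z - Sz q = ∑ p ∈ Ps Z \ Ps q, 1 / (p : ℝ) := by
    unfold Sz
    rw [← Finset.sum_sdiff (Ps_mono h)]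
    ring
  have h2 : Gz Z = (∏ p ∈ Ps Z \ Ps q, (1 - 2 / (p : ℝ))) * Gz q := by
    unfold Gz GG
    rw [Finset.prod_sdiff (Ps_mono h)]
  rw [h1, h2, ← mul_assoc, Finset.mul_sum, Real.exp_sum, ← Finset.prod_mul_distrib]
  have h3 : 1 ≤ ∏ p ∈ Ps Z \ Ps q, (Real.exp (10 / 3 * (1 / (p : ℝ))) * (1 - 2 / (p : ℝ))) := by
    calc (1 : ℝ) = ∏ p ∈ Ps Z \ Ps q, (1 : ℝ) := by simp
      _ ≤ _ := by
        apply Finset.prod_le_prod
        · intro p _
          norm_num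
        · intro p hp
          exact one_le_factor (Finset.mem_sdiff.1 hp).1
  calc Gz q = 1 * Gz q := (one_mul _).symm
    _ ≤ _ := mul_le_mul_of_nonneg_right h3 (Gz_pos q).le

theorem yy01 (p k : ℕ) : 0 ≤ 1 - yy p k ∧ 1 - yy p k ≤ 1 := by
  unfold yy
  split_ifs <;> norm_num

theorem Xz_anti {q Z : ℕ} (h : q ≤ Z) (k : ℕ) : Xz Z k ≤ Xz q k := by
  unfold Xz XX
  rw [← Finset.prod_sdiff (Ps_mono h)]
  have h1 : 0 ≤ ∏ p ∈ Ps q, (1 - yy p k) := Finset.prod_nonneg (fun p _ => (yy01 p k).1)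
  have h2 : ∏ p ∈ Ps Z \ Ps q, (1 - yy p k) ≤ 1 :=
    Finset.prod_le_one (fun p _ => (yy01 p k).1) (fun p _ => (yy01 p k).2)
  calc _ ≤ 1 * ∏ p ∈ Ps q, (1 - yy p k) := mul_le_mul_of_nonneg_right h2 h1
    _ = _ := one_mul _

theorem sum_Icc_shift (f : ℕ → ℝ) (H t : ℕ) :
    ∑ i ∈ Icc 1 H, f (t + i) = ∑ i ∈ range H, f (t + 1 + i) := by
  have h1 : Icc 1 H = Ico 1 (H + 1) := by
    ext x
    simp only [Finset.mem_Icc, Finset.mem_Ico]
    omega
  rw [h1, Finset.sum_Ico_eq_sum_range]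
  apply Finset.sum_congr (by simp)
  intro i _
  congr 1
  omega

/-- the window, sifted by the primes up to `q` -/
theorem window : ∃ K : ℕ, ∀ᶠ q : ℕ in atTop, ∀ t H : ℕ,
    ∑ i ∈ Icc 1 H, Xz q (t + i) ≤ 3 * (H * Gz q) + (q : ℝ) ^ K := by
  obtain ⟨K, hK⟩ := Pool.Agent.Helper90.Twin.fundamental (κ := 2) (by norm_num) (δ := 1)
    one_pos (A := 10 / 3) (by norm_num)
  refine ⟨K, ?_⟩
  filter_upwards [hK] with q hq t H
  have h1 := hq (fun p i => yy p (t + 1 + i)) (adm_shift (t + 1)) H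
  rw [mean_shift] at h1
  have h2 := (abs_le.1 h1).2
  have h3 : Real.exp (-(10 / 3 * Sz q)) ≤ Gz q := by
    rw [Real.exp_neg]
    exact inv_le_of_inv_le₀ (Gz_pos q) (inv_Gz_le q)
  have h4 : (H : ℝ) * Real.exp (-(10 / 3 * Sz q)) ≤ H * Gz q :=
    mul_le_mul_of_nonneg_left h3 (Nat.cast_nonneg _)
  have h5 : ∑ i ∈ range H, ∏ p ∈ Ps q, (1 - yy p (t + 1 + i)) = ∑ i ∈ Icc 1 H, Xz q (t + i) := by
    rw [sum_Icc_shift]
    rfl
  rw [h5] at h2
  linarith

theorem bt : Pool.Agent.Helper76.TB.BTG := by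
  obtain ⟨K, hK⟩ := window
  refine ⟨4 * Real.exp (40 * (2 * K + 4 : ℕ)), ?_, ?_⟩
  · have h1 : (0 : ℝ) ≤ 40 * ((2 * K + 4 : ℕ) : ℝ) := by positivity
    have h2 := Real.one_le_exp h1
    linarith
  have hroot := Pool.Agent.Helper88.BFT.root_tendsto (K + 1) (by omega)
  filter_upwards [hroot.eventually hK, hroot.eventually (eventually_ge_atTop 2),
    hroot.eventually (eventually_Sz_le (c := 10 / 3) (by norm_num) 0)] with H h1 h2 h3 t
  have hq1 := Pool.Agent.Helper88.BFT.root_pow_le (K + 1) H (by omega)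
  have hq2 := Pool.Agent.Helper88.BFT.lt_root_pow (K + 1) H (by omega)
  set q := root (K + 1) H with hq
  have hq0 : (0 : ℝ) < q := by exact_mod_cast (by omega : 0 < q)
  have hqH : q ≤ H := by
    calc q = q ^ 1 := (pow_one q).symm
      _ ≤ q ^ (K + 1) := Nat.pow_le_pow_right (by omega) (by omega)
      _ ≤ H := hq1
  have hqZ : q ≤ 3 * H + 1 := by omega
  -- the error term
  have h4 : 1 ≤ q * Gz q := by
    have e1 : (Gz q)⁻¹ ≤ q := by
      calc (Gz q)⁻¹ ≤ Real.exp (10 / 3 * Sz q) := inv_Gz_le q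
        _ ≤ Real.exp (Real.log q) := Real.exp_le_exp.2 (by linarith)
        _ = q := Real.exp_log hq0
    calc (1 : ℝ) = (Gz q)⁻¹ * Gz q := (inv_mul_cancel₀ (Gz_pos q).ne').symm
      _ ≤ _ := mul_le_mul_of_nonneg_right e1 (Gz_pos q).le
  have h5 : (q : ℝ) ^ K ≤ H * Gz q := by
    calc (q : ℝ) ^ K = q ^ K * 1 := (mul_one _).symm
      _ ≤ q ^ K * (q * Gz q) := mul_le_mul_of_nonneg_left h4 (by positivity)
      _ = (q : ℝ) ^ (K + 1) * Gz q := by ring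
      _ ≤ H * Gz q := by
        apply mul_le_mul_of_nonneg_right _ (Gz_pos q).le
        exact_mod_cast hq1
  -- the range of the primes
  have h6 : 3 * H + 1 ≤ q ^ (2 * K + 4) := by
    have e1 : q + 1 ≤ q ^ 2 := by nlinarith
    have e2 : (q + 1) ^ (K + 1) ≤ q ^ (2 * (K + 1)) := by
      rw [pow_mul]
      exact Nat.pow_le_pow_left e1 _
    have e3 : 3 ≤ q ^ 2 := by nlinarith
    calc 3 * H + 1 ≤ 3 * (q + 1) ^ (K + 1) := by omega
      _ ≤ q ^ 2 * q ^ (2 * (K + 1)) := Nat.mul_le_mul e3 e2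
      _ = q ^ (2 * K + 4) := by
        rw [← pow_add]
        congr 1
        ring
  have h7 := Pool.Agent.Helper60.BFT.Sz_pow (2 * K + 4) q (3 * H + 1) (by omega) h6
  have h8 : Gz q ≤ Real.exp (40 * (2 * K + 4 : ℕ)) * Gz (3 * H + 1) := by
    refine (Gz_le_ratio hqZ).trans ?_
    apply mul_le_mul_of_nonneg_right _ (Gz_pos _).le
    apply Real.exp_le_exp.2
    linarith
  calc ∑ i ∈ Icc 1 H, Xz (3 * H + 1) (t + i) ≤ ∑ i ∈ Icc 1 H, Xz q (t + i) :=
        Finset.sum_le_sum (fun i _ => Xz_anti hqZ (t + i))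
    _ ≤ 3 * (H * Gz q) + (q : ℝ) ^ K := h1 t H
    _ ≤ 4 * (H * Gz q) := by linarith
    _ ≤ 4 * (H * (Real.exp (40 * (2 * K + 4 : ℕ)) * Gz (3 * H + 1))) := by
        apply mul_le_mul_of_nonneg_left _ (by norm_num)
        exact mul_le_mul_of_nonneg_left h8 (Nat.cast_nonneg _)
    _ = _ := by ring

end Pool.Agent.Helper80.TB
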