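import Pool.Agent.Helper76.TB.GoalsT
import Pool.Agent.Helper88.BFT.Pth
import Pool.Agent.Helper64.BFT.LipSeq

/-!
# Project TB: packet PTHA, the pathwise assembly
-/

set_option autoImplicit false

open Finset Filter Topology

namespace Pool.Agent.Helper80.TB

open Pool.Agent.Helper60.BFT (run chi len YF YP Pair T0 T1 T2 Rem mT root)
open Pool.Agent.Helper76.TB (Dev2 EE2 WW DW vv l2 ind PathH)
open Pool.Agent.Helper88.BFT (YP_zero_one YF_zero_one Rem_nonneg block1 sum_blocks run_blocks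
  run_fst_step root_pow_le lt_root_pow root_tendsto sum_ev_le chi_abs)

section Block

variable (Z ρ : ℕ → ℕ) (β : ℕ → ℕ → (ℕ → ℕ) → ℕ) (a : ℕ → ℕ)

theorem Dev2_nonneg (r : ℕ) : 0 ≤ Dev2 ρ Z β r a := by
  unfold Dev2
  have := Rem_nonneg 4 Z β a r
  positivity

theorem blk0 (r : ℕ) :
    |∑ i ∈ range (len 4 r), YP 4 Z β a (r ^ 4 + i) - T0 4 Z β r a| ≤ Rem 4 Z β r a := by
  unfold T0 Rem
  rw [← Finset.sum_sub_distrib]
  refine (Finset.abs_sum_le_sum_abs _ _).trans (Finset.sum_le_sum (fun i _ => ?_))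
  rw [abs_sub_comm]

theorem blk2 (r : ℕ) :
    |(run (fun i => chi (r ^ 4 + i)) (fun i => YP 4 Z β a (r ^ 4 + i)) (len 4 r)).1
        - T2 4 Z β r a| ≤ 3 * Rem 4 Z β r a := by
  have h := Pool.Agent.Helper64.BFT.lipg (fun i => chi (r ^ 4 + i))
    (fun i => YF 4 Z β r a (r ^ 4 + i)) (fun i => YP 4 Z β a (r ^ 4 + i))
    (fun n => (chi_abs _).le) (fun n => YF_zero_one 4 Z β a r _)
    (fun n => YP_zero_one 4 Z β a _) (len 4 r)
  rw [abs_sub_comm]
  exact h

end Block

theorem len_sum (R : ℕ) : ∑ r ∈ range R, (len 4 r : ℝ) = (R : ℝ) ^ 4 := by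
  induction R with
  | zero => simp
  | succ R ih =>
    rw [Finset.sum_range_succ, ih]
    have h1 : (len 4 R : ℝ) = ((R + 1 : ℕ) : ℝ) ^ 4 - (R : ℝ) ^ 4 := by
      unfold len
      rw [Nat.cast_sub (Nat.pow_le_pow_left (by omega) 4)]
      push_cast
      ring
    rw [h1]
    push_cast
    ring

theorem len_le (R : ℕ) (hR : 1 ≤ R) : (len 4 R : ℝ) ≤ 15 * (R : ℝ) ^ 3 := by
  have h1 : (len 4 R : ℝ) = ((R + 1 : ℕ) : ℝ) ^ 4 - (R : ℝ) ^ 4 := by
    unfold len
    rw [Nat.cast_sub (Nat.pow_le_pow_left (by omega) 4)]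
    push_cast
    ring
  have h2 : (1 : ℝ) ≤ R := by exact_mod_cast hR
  have h3 : (R : ℝ) ≤ R ^ 2 := by nlinarith
  have h4 : (R : ℝ) ^ 2 ≤ R ^ 3 := by nlinarith
  rw [h1]
  push_cast
  nlinarith

theorem log_pow_le (k : ℕ) : ∀ᶠ R : ℕ in atTop, Real.log R ^ k ≤ R := by
  have h1 : ∀ᶠ x : ℝ in atTop, ‖Real.log x ^ k‖ ≤ 1 * ‖id x‖ :=
    (Asymptotics.isLittleO_iff.1 (Real.isLittleO_pow_log_id_atTop (n := k))) one_pos
  filter_upwards [tendsto_natCast_atTop_atTop.eventually h1] with R hR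
  have h2 : ‖id (R : ℝ)‖ = R := by
    simp
  rw [h2, one_mul] at hR
  exact (Real.le_norm_self _).trans hR

theorem log_tendsto : Tendsto (fun R : ℕ => Real.log (R : ℝ)) atTop atTop :=
  Real.tendsto_log_atTop.comp tendsto_natCast_atTop_atTop

/-- the sum of the error terms of the blocks -/
theorem sum_err : ∃ C2 : ℝ, 0 ≤ C2 ∧ ∀ᶠ R : ℕ in atTop,
    ∑ r ∈ range R, (len 4 r : ℝ) / Real.log r ^ 5 ≤ C2 * ((R : ℝ) ^ 4 / Real.log R ^ 5) := by
  have hl2 : 0 < Real.log 2 := Real.log_pos (by norm_num)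
  refine ⟨1 / Real.log 2 ^ 5 + 4 ^ 5, by positivity, ?_⟩
  filter_upwards [log_pow_le 5, log_tendsto.eventually_ge_atTop 1, eventually_ge_atTop 16]
    with R h1 h2 h3
  set s := Nat.sqrt R with hs
  have hR16 : (16 : ℝ) ≤ R := by exact_mod_cast h3
  have hs4 : 4 ≤ s := by
    rw [hs, Nat.le_sqrt]
    omega
  have hsR : s ≤ R := Nat.sqrt_le_self R
  have hs2 : (s : ℝ) ^ 2 ≤ R := by
    have := Nat.sqrt_le' R
    exact_mod_cast this
  have hs5 : R ≤ s ^ 4 := by
    have e1 : R < (s + 1) ^ 2 := Nat.lt_succ_sqrt' R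
    have e2 : s + 1 ≤ s ^ 2 := by nlinarith
    calc R ≤ (s + 1) ^ 2 := e1.le
      _ ≤ (s ^ 2) ^ 2 := Nat.pow_le_pow_left e2 2
      _ = s ^ 4 := by ring
  have hlogs : Real.log R ≤ 4 * Real.log s := by
    have e1 : Real.log R ≤ Real.log ((s : ℝ) ^ 4) := by
      apply Real.log_le_log (by linarith)
      exact_mod_cast hs5
    rwa [Real.log_pow] at e1
  have hL : (0 : ℝ) < Real.log R ^ 5 := by positivity
  have key : ∀ r ∈ range R, (len 4 r : ℝ) / Real.log r ^ 5
      ≤ (if r < s then (len 4 r : ℝ) / Real.log 2 ^ 5 else 0)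
        + (len 4 r : ℝ) * (4 ^ 5 / Real.log R ^ 5) := by
    intro r _
    have hlen : (0 : ℝ) ≤ len 4 r := Nat.cast_nonneg _
    have hB : (0 : ℝ) ≤ (len 4 r : ℝ) * (4 ^ 5 / Real.log R ^ 5) := by positivity
    split_ifs with hr
    · have e1 : (len 4 r : ℝ) / Real.log r ^ 5 ≤ (len 4 r : ℝ) / Real.log 2 ^ 5 := by
        rcases Nat.lt_or_ge r 2 with h | h
        · have e2 : Real.log (r : ℝ) = 0 := by
            interval_cases r <;> simp
          rw [e2]
          simp only [ne_eq, OfNat.ofNat_ne_zero, not_false_eq_true, zero_pow, div_zero]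
          positivity
        · apply div_le_div_of_nonneg_left hlen (by positivity)
          apply pow_le_pow_left₀ hl2.le
          apply Real.log_le_log (by norm_num)
          exact_mod_cast h
      linarith
    · push Not at hr
      have e1 : Real.log s ≤ Real.log r := by
        apply Real.log_le_log
        · exact_mod_cast (by omega : 0 < s)
        · exact_mod_cast hr
      have e2 : Real.log R / 4 ≤ Real.log r := by linarith
      have e3 : (0 : ℝ) < (Real.log R / 4) ^ 5 := by positivity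
      have e4 : (len 4 r : ℝ) / Real.log r ^ 5 ≤ (len 4 r : ℝ) / (Real.log R / 4) ^ 5 := by
        apply div_le_div_of_nonneg_left hlen e3
        exact pow_le_pow_left₀ (by positivity) e2 5
      have e5 : (len 4 r : ℝ) / (Real.log R / 4) ^ 5
          = (len 4 r : ℝ) * (4 ^ 5 / Real.log R ^ 5) := by
        rw [div_pow, div_div_eq_mul_div]
        ring
      linarith
  refine (Finset.sum_le_sum key).trans ?_
  rw [Finset.sum_add_distrib, ← Finset.sum_mul, len_sum, ← Finset.sum_filter]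
  have h4 : ∑ r ∈ (range R).filter (fun r => r < s), (len 4 r : ℝ) / Real.log 2 ^ 5
      ≤ (R : ℝ) ^ 4 / Real.log R ^ 5 * (1 / Real.log 2 ^ 5) := by
    have e0 : (range R).filter (fun r => r < s) = range s := by
      ext r
      simp only [Finset.mem_filter, Finset.mem_range]
      omega
    rw [e0, ← Finset.sum_div, len_sum, div_eq_mul_one_div]
    apply mul_le_mul_of_nonneg_right _ (by positivity)
    rw [le_div_iff₀ hL]
    have e1 : (s : ℝ) ^ 4 ≤ (R : ℝ) ^ 2 := by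
      calc (s : ℝ) ^ 4 = ((s : ℝ) ^ 2) ^ 2 := by ring
        _ ≤ (R : ℝ) ^ 2 := pow_le_pow_left₀ (by positivity) hs2 2
    calc (s : ℝ) ^ 4 * Real.log R ^ 5 ≤ (R : ℝ) ^ 2 * R :=
          mul_le_mul e1 h1 hL.le (by positivity)
      _ = (R : ℝ) ^ 3 := by ring
      _ ≤ (R : ℝ) ^ 4 := pow_le_pow_right₀ (by linarith) (by norm_num)
  have h5 : (R : ℝ) ^ 4 * (4 ^ 5 / Real.log R ^ 5) = (R : ℝ) ^ 4 / Real.log R ^ 5 * 4 ^ 5 := by
    ring
  rw [h5]
  linarith

theorem ptha : Pool.Agent.Helper76.TB.PTHAG := by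
  intro Z ρ β a C c' hP η hη
  have hind : (fun n => ind (Pair 4 Z β a) n) = YP 4 Z β a := by
    funext n
    unfold ind YP
    rfl
  have hind' : ind (Pair 4 Z β a) = YP 4 Z β a := hind
  rw [hind']
  set D : ℕ → ℝ := fun r => Dev2 ρ Z β r a with hDdef
  set G : ℕ → ℝ := fun r => 3 * D r + |C| * ((len 4 r : ℝ) / Real.log r ^ 5) with hG
  have hD0 : ∀ r, 0 ≤ D r := fun r => Dev2_nonneg Z ρ β a r
  have hC : ∀ r : ℕ, 1 ≤ r →
      C * ((len 4 r : ℝ) / Real.log r ^ 5) ≤ |C| * ((len 4 r : ℝ) / Real.log r ^ 5) := by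
    intro r hr
    apply mul_le_mul_of_nonneg_right (le_abs_self C)
    have : 0 ≤ Real.log (r : ℝ) := Real.log_nonneg (by exact_mod_cast hr)
    positivity
  -- the three blockwise inequalities
  have hA : ∀ᶠ r : ℕ in atTop,
      |∑ i ∈ range (len 4 r), YP 4 Z β a (r ^ 4 + i) - mT 4 Z r| ≤ G r := by
    filter_upwards [hP.blk, eventually_ge_atTop 1] with r hr hr1
    have h1 := blk0 Z β a r
    have h2 := hC r hr1
    have h3 : Rem 4 Z β r a + |T0 4 Z β r a - EE2 ρ Z (T0 4 Z β r) r a| ≤ D r := by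
      have := abs_nonneg (T1 4 Z β r a - EE2 ρ Z (T1 4 Z β r) r a)
      have := abs_nonneg (T2 4 Z β r a - EE2 ρ Z (T2 4 Z β r) r a)
      simp only [hDdef, Dev2]
      linarith
    have h4 : |∑ i ∈ range (len 4 r), YP 4 Z β a (r ^ 4 + i) - mT 4 Z r|
        ≤ |∑ i ∈ range (len 4 r), YP 4 Z β a (r ^ 4 + i) - T0 4 Z β r a|
          + |T0 4 Z β r a - EE2 ρ Z (T0 4 Z β r) r a|
          + |EE2 ρ Z (T0 4 Z β r) r a - mT 4 Z r| := by
      refine le_trans (le_of_eq ?_) ((abs_add_le _ _).trans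
        (add_le_add (abs_add_le _ _) le_rfl))
      congr 1
      ring
    have h5 := hr.1
    have h6 := hD0 r
    simp only [hG]
    linarith
  have hB : ∀ᶠ r : ℕ in atTop,
      |∑ i ∈ range (len 4 r), YP 4 Z β a (r ^ 4 + i) * chi (r ^ 4 + i)| ≤ G r := by
    filter_upwards [hP.blk, eventually_ge_atTop 1] with r hr hr1
    have h1 := block1 4 Z β a r
    have h2 := hC r hr1
    have h3 : Rem 4 Z β r a + |T1 4 Z β r a - EE2 ρ Z (T1 4 Z β r) r a| ≤ D r := by
      have := abs_nonneg (T0 4 Z β r a - EE2 ρ Z (T0 4 Z β r) r a)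
      have := abs_nonneg (T2 4 Z β r a - EE2 ρ Z (T2 4 Z β r) r a)
      simp only [hDdef, Dev2]
      linarith
    have h4 : |T1 4 Z β r a| ≤ |T1 4 Z β r a - EE2 ρ Z (T1 4 Z β r) r a|
        + |EE2 ρ Z (T1 4 Z β r) r a| := by
      have := abs_add_le (T1 4 Z β r a - EE2 ρ Z (T1 4 Z β r) r a) (EE2 ρ Z (T1 4 Z β r) r a)
      rwa [sub_add_cancel] at this
    have h5 := hr.2.1
    have h6 := hD0 r
    simp only [hG]
    linarith
  have hCC : ∀ᶠ r : ℕ in atTop,
      |(run (fun i => chi (r ^ 4 + i)) (fun i => YP 4 Z β a (r ^ 4 + i)) (len 4 r)).1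
        - mT 4 Z r * Pool.Agent.Helper76.TB.DD (Z (r ^ 4))| ≤ G r := by
    filter_upwards [hP.blk, eventually_ge_atTop 1] with r hr hr1
    have h1 := blk2 Z β a r
    have h2 := hC r hr1
    have h3 : 3 * Rem 4 Z β r a + |T2 4 Z β r a - EE2 ρ Z (T2 4 Z β r) r a| ≤ 3 * D r := by
      have := abs_nonneg (T0 4 Z β r a - EE2 ρ Z (T0 4 Z β r) r a)
      have := abs_nonneg (T1 4 Z β r a - EE2 ρ Z (T1 4 Z β r) r a)
      have := abs_nonneg (T2 4 Z β r a - EE2 ρ Z (T2 4 Z β r) r a)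
      simp only [hDdef, Dev2]
      linarith
    have h4 : |(run (fun i => chi (r ^ 4 + i)) (fun i => YP 4 Z β a (r ^ 4 + i)) (len 4 r)).1
        - mT 4 Z r * Pool.Agent.Helper76.TB.DD (Z (r ^ 4))|
        ≤ |(run (fun i => chi (r ^ 4 + i)) (fun i => YP 4 Z β a (r ^ 4 + i)) (len 4 r)).1
            - T2 4 Z β r a|
          + |T2 4 Z β r a - EE2 ρ Z (T2 4 Z β r) r a|
          + |EE2 ρ Z (T2 4 Z β r) r a - mT 4 Z r * Pool.Agent.Helper76.TB.DD (Z (r ^ 4))| := by
      refine le_trans (le_of_eq ?_) ((abs_add_le _ _).trans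
        (add_le_add (abs_add_le _ _) le_rfl))
      congr 1
      ring
    have h5 := hr.2.2
    simp only [hG]
    linarith
  obtain ⟨C0, hC0, hA'⟩ := sum_ev_le _ _ hA
  obtain ⟨C1, hC1, hB'⟩ := sum_ev_le _ _ hB
  obtain ⟨C3, hC3, hC'⟩ := sum_ev_le _ _ hCC
  obtain ⟨C2, hC2, hsum⟩ := sum_err
  set SG : ℕ → ℝ := fun R => ∑ r ∈ range R, G r with hSG
  have hA2 : ∀ R, |∑ n ∈ range (R ^ 4), YP 4 Z β a n - WW Z R| ≤ SG R + C0 := by
    intro R
    rw [sum_blocks 4 (by norm_num)]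
    unfold WW
    rw [← Finset.sum_sub_distrib]
    exact (Finset.abs_sum_le_sum_abs _ _).trans (hA' R)
  have hB2 : ∀ R, |∑ n ∈ range (R ^ 4), YP 4 Z β a n * chi n| ≤ SG R + C1 := by
    intro R
    rw [sum_blocks 4 (by norm_num)]
    exact (Finset.abs_sum_le_sum_abs _ _).trans (hB' R)
  have hC2' : ∀ R, |(run chi (YP 4 Z β a) (R ^ 4)).1
      - ∑ r ∈ range R, mT 4 Z r * Pool.Agent.Helper76.TB.DD (Z (r ^ 4))| ≤ SG R + C3 + R := by
    intro R
    have h2 := run_blocks 4 (by norm_num) chi (YP 4 Z β a) (fun n => (chi_abs n).le)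
      (YP_zero_one 4 Z β a) R
    have h3 := (Finset.abs_sum_le_sum_abs (fun r =>
      (run (fun i => chi (r ^ 4 + i)) (fun i => YP 4 Z β a (r ^ 4 + i)) (len 4 r)).1
        - mT 4 Z r * Pool.Agent.Helper76.TB.DD (Z (r ^ 4))) (range R)).trans (hC' R)
    rw [Finset.sum_sub_distrib] at h3
    have h4 := abs_le.1 h3
    have h5 := abs_le.1 h2
    simp only [hSG]
    rw [abs_le]
    constructor <;> linarith [h4.1, h4.2, h5.1, h5.2]
  -- the size of the errors
  set M : ℝ := 3 + |C| * C2 + 1 + 1 + 15 with hM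
  have hM0 : 0 ≤ M := by positivity
  have hsize : ∀ᶠ R : ℕ in atTop,
      SG R + (C0 + C1 + C3 + 3) + R + len 4 R ≤ η * vv R * WW Z R ∧ 0 < WW Z R := by
    have hc' := hP.pos
    filter_upwards [hP.dev, hP.low, hsum, log_pow_le 5, log_tendsto.eventually_ge_atTop (Real.exp 1),
      log_tendsto.eventually_ge_atTop (M / (η * c')), eventually_ge_atTop 2,
      tendsto_natCast_atTop_atTop.eventually (eventually_ge_atTop (C0 + C1 + C3 + 3))]
      with R h1 h2 h3 h4 h5 h6 h7 h8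
    have hR0 : (2 : ℝ) ≤ R := by exact_mod_cast h7
    have hlpos : 0 < Real.log R := (Real.exp_pos 1).trans_le h5
    set Λ := Real.log (R : ℝ) with hΛ
    set Q : ℝ := (R : ℝ) ^ 4 / Λ ^ 5 with hQ
    have hQ3 : (R : ℝ) ^ 3 ≤ Q := by
      rw [hQ, le_div_iff₀ (by positivity)]
      calc (R : ℝ) ^ 3 * Λ ^ 5 ≤ R ^ 3 * R := mul_le_mul_of_nonneg_left h4 (by positivity)
        _ = (R : ℝ) ^ 4 := by ring
    have hQ1 : (R : ℝ) ≤ Q := by
      refine le_trans ?_ hQ3
      calc (R : ℝ) = R ^ 1 := (pow_one _).symm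
        _ ≤ R ^ 3 := pow_le_pow_right₀ (by linarith) (by norm_num)
    have e1 : SG R = 3 * ∑ r ∈ range R, D r
        + |C| * ∑ r ∈ range R, (len 4 r : ℝ) / Real.log r ^ 5 := by
      simp only [hSG, hG]
      rw [Finset.sum_add_distrib, ← Finset.mul_sum, ← Finset.mul_sum]
    have e2 : |C| * ∑ r ∈ range R, (len 4 r : ℝ) / Real.log r ^ 5 ≤ |C| * (C2 * Q) :=
      mul_le_mul_of_nonneg_left h3 (abs_nonneg _)
    have e3 : (len 4 R : ℝ) ≤ 15 * Q := by
      have := len_le R (by omega)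
      linarith
    have e4 : SG R + (C0 + C1 + C3 + 3) + R + len 4 R ≤ M * Q := by
      have e5 : M * Q = 3 * Q + |C| * (C2 * Q) + Q + Q + 15 * Q := by
        rw [hM]
        ring
      rw [e1, e5]
      have e6 : ∑ r ∈ range R, D r ≤ Q := h1
      linarith
    have hl2 : 1 ≤ l2 R := by
      unfold l2
      rw [Real.le_log_iff_exp_le hlpos]
      exact h5
    have hWpos : 0 < WW Z R := lt_of_lt_of_le (by positivity) h2
    have hvv : 0 < vv R := by
      unfold vv
      have : 0 < l2 R := by linarith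
      positivity
    refine ⟨e4.trans ?_, hWpos⟩
    have e7 : M ≤ η * c' * Λ := by
      rw [div_le_iff₀ (by positivity)] at h6
      linarith
    calc M * Q ≤ (η * c' * Λ) * Q := mul_le_mul_of_nonneg_right e7 (by positivity)
      _ = η * (1 / Λ) ^ 2 * (c' * ((R : ℝ) ^ 4 / Λ ^ 2)) := by
          rw [hQ]
          field_simp
      _ ≤ η * vv R * WW Z R := by
          apply mul_le_mul _ h2 (by positivity) (by positivity)
          apply mul_le_mul_of_nonneg_left _ hη.le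
          unfold vv
          apply pow_le_pow_left₀ (by positivity)
          exact div_le_div_of_nonneg_right hl2 hlpos.le
  -- the last block
  have hR := root_tendsto 4 (by norm_num)
  filter_upwards [hR.eventually hsize] with x hx
  obtain ⟨hx1, hx2⟩ := hx
  set R := root 4 x with hRdef
  have hlo : R ^ 4 ≤ x := root_pow_le 4 x (by norm_num)
  have hhi : x < (R + 1) ^ 4 := lt_root_pow 4 x (by norm_num)
  obtain ⟨m, hm⟩ : ∃ m, x + 1 = R ^ 4 + m := ⟨x + 1 - R ^ 4, by omega⟩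
  have hmlen : m ≤ len 4 R := by
    unfold len
    omega
  have hmlen' : (m : ℝ) ≤ len 4 R := by exact_mod_cast hmlen
  have hRn : (0 : ℝ) ≤ R := Nat.cast_nonneg _
  have hln : (0 : ℝ) ≤ len 4 R := Nat.cast_nonneg _
  have hSG0 : 0 ≤ SG R + (C0 + C1 + C3) := by
    have := (abs_nonneg _).trans (hA2 R)
    linarith
  have hSG0' : -C0 ≤ SG R := by
    have := (abs_nonneg _).trans (hA2 R)
    linarith
  refine ⟨?_, ?_, ?_, ?_⟩
  · rw [hm, Finset.sum_range_add]
    have e1 := hA2 R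
    have e2 : |∑ i ∈ range m, YP 4 Z β a (R ^ 4 + i)| ≤ m := by
      refine (Finset.abs_sum_le_sum_abs _ _).trans ?_
      calc ∑ i ∈ range m, |YP 4 Z β a (R ^ 4 + i)|
          ≤ ∑ i ∈ range m, (1 : ℝ) := by
            apply Finset.sum_le_sum
            intro i _
            rcases YP_zero_one 4 Z β a (R ^ 4 + i) with h | h <;> simp [h]
        _ = m := by simp
    have e3 := abs_le.1 e1
    have e4 := abs_le.1 e2
    rw [abs_le]
    constructor <;> linarith [e3.1, e3.2, e4.1, e4.2]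
  · rw [hm, Finset.sum_range_add]
    have e1 := hB2 R
    have e2 : |∑ i ∈ range m, YP 4 Z β a (R ^ 4 + i) * chi (R ^ 4 + i)| ≤ m := by
      refine (Finset.abs_sum_le_sum_abs _ _).trans ?_
      calc ∑ i ∈ range m, |YP 4 Z β a (R ^ 4 + i) * chi (R ^ 4 + i)|
          ≤ ∑ i ∈ range m, (1 : ℝ) := by
            apply Finset.sum_le_sum
            intro i _
            rw [abs_mul, chi_abs, mul_one]
            rcases YP_zero_one 4 Z β a (R ^ 4 + i) with h | h <;> simp [h]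
        _ = m := by simp
    refine (abs_add_le _ _).trans ?_
    linarith
  · have e1 := hC2' R
    have e2 := run_fst_step chi (YP 4 Z β a) (fun n => (chi_abs n).le) (YP_zero_one 4 Z β a)
      (R ^ 4) m
    rw [← hm] at e2
    have e0 : DW Z R * WW Z R
        = ∑ r ∈ range R, mT 4 Z r * Pool.Agent.Helper76.TB.DD (Z (r ^ 4)) := by
      unfold DW
      rw [div_mul_cancel₀ _ hx2.ne']
    rw [e0]
    have e3 := abs_le.1 e1
    have e4 := abs_le.1 e2
    rw [abs_le]
    constructor <;> linarith [e3.1, e3.2, e4.1, e4.2]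
  · linarith

end Pool.Agent.Helper80.TB
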